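import Pool.Agent.H5.TT.Stm

set_option autoImplicit false

/-! Crew TT, part BDD (helper55, backup). -/

namespace Pool.Agent.H55.TT

open MeasureTheory H5.TT

/-- `S_YNG` with the brackets (the same as `H1.TT.S_YNG'`) -/
def S_YNG2 : Prop := ∃ C : ℝ, 0 ≤ C ∧ ∀ (lam : ℝ) (ϱ : R3 → ℝ), Adm lam ϱ → ∀ (a : R3) (ε : ℝ),
  0 < ε → Integrable (fun x => ϱ x / ‖x - a‖) ∧
    ∫ x, ϱ x / ‖x - a‖ ≤ 3 / 5 * ε * (∫ x, ϱ x ^ (5 / 3 : ℝ)) + C * ε ^ (-(3 / 2) : ℝ) + ∫ x, ϱ x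

theorem t_BDD (hY : S_YNG2) : S_BDD := by
  obtain ⟨C, hC0, hC⟩ := hY
  intro k z R hz lam hlam
  set Z : ℝ := ∑ j, z j with hZ
  have hZ0 : 0 ≤ Z := Finset.sum_nonneg fun j _ => hz j
  set ε : ℝ := 1 / (1 + Z) with hε
  have hε0 : 0 < ε := by positivity
  have hεZ : ε * Z ≤ 1 := by
    rw [hε, one_div, inv_mul_le_iff₀ (by positivity)]
    linarith
  refine ⟨Z * (C * ε ^ (-(3 / 2) : ℝ) + lam), fun l hl ϱ hϱ => ?_⟩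
  have hK : 0 ≤ ∫ x, ϱ x ^ (5 / 3 : ℝ) :=
    integral_nonneg fun x => Real.rpow_nonneg (hϱ.2.1 x) _
  have hdd : 0 ≤ dd ϱ ϱ := by
    unfold dd
    exact integral_nonneg fun p =>
      div_nonneg (mul_nonneg (hϱ.2.1 _) (hϱ.2.1 _)) (norm_nonneg _)
  have hrep : rep z (fun j => l • R j) = rep z R / l := by
    unfold rep
    rw [Finset.sum_div]
    refine Finset.sum_congr rfl fun i _ => ?_
    rw [Finset.sum_div]
    refine Finset.sum_congr rfl fun j _ => ?_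
    rw [← smul_sub, norm_smul, Real.norm_of_nonneg hl.le, div_div, mul_comm l]
  have hatt : att z R l ϱ ≤ Z * (3 / 5 * ε * (∫ x, ϱ x ^ (5 / 3 : ℝ)) + C * ε ^ (-(3 / 2) : ℝ) + lam) := by
    unfold att
    rw [hZ, Finset.sum_mul]
    refine Finset.sum_le_sum fun j _ => ?_
    refine mul_le_mul_of_nonneg_left ?_ (hz j)
    have h := (hC lam ϱ hϱ (l • R j) ε hε0).2
    have h5 := hϱ.2.2.2.2
    linarith
  have hkin : Z * (3 / 5 * ε * (∫ x, ϱ x ^ (5 / 3 : ℝ))) ≤ kin ϱ := by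
    unfold kin
    have : Z * (3 / 5 * ε * (∫ x, ϱ x ^ (5 / 3 : ℝ))) = (ε * Z) * (3 / 5 * (∫ x, ϱ x ^ (5 / 3 : ℝ))) := by
      ring
    rw [this]
    have h6 : 0 ≤ 3 / 5 * (∫ x, ϱ x ^ (5 / 3 : ℝ)) := by positivity
    calc (ε * Z) * (3 / 5 * (∫ x, ϱ x ^ (5 / 3 : ℝ))) ≤ 1 * (3 / 5 * (∫ x, ϱ x ^ (5 / 3 : ℝ))) :=
          mul_le_mul_of_nonneg_right hεZ h6
      _ = _ := one_mul _
  unfold tf
  rw [hrep]
  have h7 : Z * (3 / 5 * ε * (∫ x, ϱ x ^ (5 / 3 : ℝ)) + C * ε ^ (-(3 / 2) : ℝ) + lam) =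
      Z * (3 / 5 * ε * (∫ x, ϱ x ^ (5 / 3 : ℝ))) + Z * (C * ε ^ (-(3 / 2) : ℝ) + lam) := by ring
  rw [h7] at hatt
  linarith

end Pool.Agent.H55.TT
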